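import Pool.Agent.Y61.SC.Fin

/-! The two-sided orbit supercharacter theory of the unitriangular group over a finite field is the
coarsest supercharacter theory which contains all single-box irreducible characters. -/

namespace Pool.Agent.Results.MP_1f99fc_al.AndreCoarsest

open Pool.Agent.Y61.SC

theorem result (n : ℕ) (K : Type) [Field K] [Finite K] (θ : AddChar K ℂ) (hθ : θ ≠ 1) :
    IsTheory (andreX n K θ) (andreC n K) ∧
    (∀ (l : Module.Dual K (nil n K)) (g : U n K),
      ∑ᶠ ψ ∈ constituents (superchar θ l), ψ.1 1 * ψ.1 g = superchar θ l g) ∧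
    (∀ i j : Fin n, i < j → ∀ a : K, a ≠ 0 → ∃! χ : Irr (U n K), IsBox θ i j a χ) ∧
    HasBoxes θ (andreX n K θ) ∧
    ∀ (X : Set (Set (Irr (U n K)))) (C : Set (Set (U n K))), IsTheory X C → HasBoxes θ X →
      Coarser (andreX n K θ) (andreC n K) X C := by
  refine ⟨andre_isTheory hθ, fun l g => (congrFun (super_eq_sig hθ l) g).symm, ?_, ?_, ?_⟩
  · intro i j hij a ha
    obtain ⟨χ, hχ, -⟩ := exists_isBox hθ i j hij ha
    exact ⟨χ, hχ, fun φ hφ => isBox_unique i j a φ χ hφ hχ⟩
  · intro i j hij a ha χ hχ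
    obtain ⟨φ, hφ, h⟩ := exists_isBox hθ i j hij ha
    rwa [isBox_unique i j a χ φ hχ hφ]
  · intro X C h hb
    exact coarsest hθ h hb

end Pool.Agent.Results.MP_1f99fc_al.AndreCoarsest
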